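import Pool.Agent.TH893.JO.Len

/-!
# Lenstra's condition for `W = ⟨W₀, D n ^ r⟩` in arbitrary sets of primes

For almost all integers `n` the number of the primes of Lenstra's set `𝒮(F, C, W, k)`,
`W = ⟨W₀, D n ^ r⟩`, which belong to a given set `S` of primes is the sum of explicit local densities
over the primes of `S`, with a power saving.  The set `S` is ARBITRARY, only with at least `X ^ σ`
elements up to `X`, and everything is uniform in `S`, `F`, `C`, `W₀`, `D`, `r`, `k`; in particular every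
exponent `r ≥ 1` and every `k ≥ 1` are allowed, and `W₀` need not be finitely generated.

Libraries: helper890 (large sieve through `k`-th powers and duality for arbitrary sets of primes),
helper171 (reduction of subgroups of `ℚˣ` modulo primes).  New here: the characters for Lenstra's
condition and the explicit local densities for all `r` and `k`.
-/

set_option autoImplicit false

namespace Pool.Agent.Results.MP_48b1c3_nt.ArbitrarySetsOfPrimes

open Finset NumberField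

/-- the Frobenius conjugacy class of `q` in `G(F/ℚ)` meets `C` -/
def FrobIn (F : IntermediateField ℚ (AlgebraicClosure ℚ)) [NumberField F]
    (C : Set (F ≃ₐ[ℚ] F)) (q : ℕ) : Prop :=
  ∃ σ ∈ C, ∃ Q : Ideal (𝓞 F), Q.IsPrime ∧
    Q.comap (algebraMap ℤ (𝓞 F)) = Ideal.span {(q : ℤ)} ∧
    ∀ a b : 𝓞 F, (b : F) = σ (a : F) → b - a ^ q ∈ Q

/-- `q` is in the set `𝒮(F, C, W, k)` of Q1: the Frobenius condition, `W` consists of `q`-units, and the
index of `W` modulo `q` divides `k` -/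
def InS (F : IntermediateField ℚ (AlgebraicClosure ℚ)) [NumberField F]
    (C : Set (F ≃ₐ[ℚ] F)) (W : Subgroup ℚˣ) (k q : ℕ) : Prop :=
  FrobIn F C q ∧ (∀ w ∈ W, padicValRat q (w : ℚ) = 0) ∧
    (Subgroup.closure {u : (ZMod q)ˣ | ∃ w ∈ W,
      (((w : ℚ).num : ℤ) : ZMod q) = (u : ZMod q) * (((w : ℚ).den : ℕ) : ZMod q)}).index ∣ k

/-- the reduction of `w` modulo `q` is a `d`-th power -/
def IsPow (q d : ℕ) (w : ℚˣ) : Prop :=
  ∃ y : ZMod q, (((w : ℚ).num : ℤ) : ZMod q) = y ^ d * (((w : ℚ).den : ℕ) : ZMod q)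

open Classical in
/-- the local factor at the prime `l`; here `Q = l ^ (ν_l(k) + 1)`. It is `1` unless `Q ∣ q - 1` and all
elements of `W₀` are `Q`-th powers modulo `q`; in this case it is `1 - g/Q` with `g = gcd(r, Q)` if `D`
is a `g`-th power modulo `q`, and `1` otherwise -/
noncomputable def factor (W₀ : Subgroup ℚˣ) (k : ℕ) (D : ℚˣ) (r q l : ℕ) : ℝ :=
  if l ^ (k.factorization l + 1) ∣ q - 1 ∧ ∀ w ∈ W₀, IsPow q (l ^ (k.factorization l + 1)) w then
    1 - (if IsPow q (Nat.gcd r (l ^ (k.factorization l + 1))) D then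
      (Nat.gcd r (l ^ (k.factorization l + 1)) : ℝ) / (l ^ (k.factorization l + 1) : ℕ) else 0)
  else 1

open Classical in
/-- the local density at `q`: the product of the local factors over the primes `l ∣ q - 1` if the
Frobenius class of `q` meets `C` and `W₀` consists of `q`-units, `0` otherwise -/
noncomputable def loc (F : IntermediateField ℚ (AlgebraicClosure ℚ)) [NumberField F]
    (C : Set (F ≃ₐ[ℚ] F)) (W₀ : Subgroup ℚˣ) (k : ℕ) (D : ℚˣ) (r q : ℕ) : ℝ :=
  if FrobIn F C q ∧ ∀ w ∈ W₀, padicValRat q (w : ℚ) = 0 then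
    ∏ l ∈ (q - 1).primeFactors, factor W₀ k D r q l else 0

open Classical in
/-- the `n` between `1` and `N` for which the number of `q ∈ S` in `𝒮(F, C, ⟨W₀, D n ^ r⟩, k)` differs
from the sum of the local densities by more than `|S| X ^ (-c)` -/
noncomputable def exceptions (F : IntermediateField ℚ (AlgebraicClosure ℚ)) [NumberField F]
    (C : Set (F ≃ₐ[ℚ] F)) (W₀ : Subgroup ℚˣ) (k : ℕ) (D : ℚˣ) (r : ℕ) (S : Finset ℕ) (N X : ℕ)
    (c : ℝ) : Finset ℕ :=
  (Icc 1 N).filter (fun n : ℕ => #S * (X : ℝ) ^ (-c) <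
    |(#(S.filter (fun q => InS F C
        (W₀ ⊔ Subgroup.closure {w : ℚˣ | (w : ℚ) = (D : ℚ) * (n : ℚ) ^ r}) k q)) : ℝ) -
      ∑ q ∈ S, loc F C W₀ k D r q|)

open Pool.Agent.W171.LG (rd Un rd_ne un_iff unW_iff UnW PW GF) in
lemma isPow_iff {q : ℕ} [Fact q.Prime] {w : ℚˣ} (h : Un q (w : ℚ)) (d : ℕ) :
    IsPow q d w ↔ ∃ y : ZMod q, y ^ d = rd q (w : ℚ) := by
  unfold IsPow rd
  refine exists_congr fun y => ?_
  rw [eq_mul_inv_iff_mul_eq₀ h.2]
  exact eq_comm

open Pool.Agent.W171.LG (rd Un rd_ne un_iff unW_iff UnW PW GF QR) in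
open Pool.Agent.H981R3.LN (ql Sk) in
open Pool.Agent.TH893.JO in
lemma loc_eq (F : IntermediateField ℚ (AlgebraicClosure ℚ)) [NumberField F] [IsGalois ℚ F]
    (C : Set (F ≃ₐ[ℚ] F)) (W₀ : Subgroup ℚˣ) (k : ℕ) (D : ℚˣ) (r : ℕ) {q : ℕ} (hq : q.Prime)
    (hD : padicValRat q (D : ℚ) = 0) :
    loc F C W₀ k D r q = Pool.Agent.TH890.AS.dens q (QR F C W₀ k D r q) := by
  classical
  have : Fact q.Prime := ⟨hq⟩
  have hUD : Un q (D : ℚ) := (un_iff D.ne_zero).2 hD
  rw [dens_QR]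
  unfold loc
  by_cases hW : UnW W₀ q
  · have hW' : ∀ w ∈ W₀, padicValRat q (w : ℚ) = 0 := (unW_iff W₀).1 hW
    by_cases hG : FrobIn F C q
    · have hG' : GF F C q := hG
      rw [if_pos ⟨hG, hW'⟩, if_pos ⟨hG', hW, hUD⟩]
      unfold LL Sk
      rw [filter_filter, prod_filter]
      refine prod_congr rfl fun l hl => ?_
      unfold factor
      have e1 : (ql k l ∣ q - 1 ∧ PW W₀ (ql k l) q) ↔ (l ^ (k.factorization l + 1) ∣ q - 1 ∧
          ∀ w ∈ W₀, IsPow q (l ^ (k.factorization l + 1)) w) := by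
        change (ql k l ∣ q - 1 ∧ PW W₀ (ql k l) q) ↔ (ql k l ∣ q - 1 ∧ ∀ w ∈ W₀, IsPow q (ql k l) w)
        refine and_congr_right fun hd => ?_
        unfold PW
        constructor
        · rintro ⟨-, h⟩ w hw
          rw [isPow_iff (hW w hw), ← zpow_iff (rd_ne (hW w hw)) hd]
          exact h w hw
        · intro h
          refine ⟨hd, fun w hw => ?_⟩
          rw [zpow_iff (rd_ne (hW w hw)) hd, ← isPow_iff (hW w hw)]
          exact h w hw
      by_cases hc : ql k l ∣ q - 1 ∧ PW W₀ (ql k l) q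
      · rw [if_pos hc, if_pos (e1.1 hc)]
        congr 1
        unfold PD
        have e2 : IsPow q (Nat.gcd r (l ^ (k.factorization l + 1))) D ↔
            ∃ y : ZMod q, y ^ Nat.gcd r (ql k l) = rd q (D : ℚ) := isPow_iff hUD _
        by_cases hP : IsPow q (Nat.gcd r (l ^ (k.factorization l + 1))) D
        · rw [if_pos hP, if_pos (e2.1 hP)]
          rfl
        · rw [if_neg hP, if_neg (fun h => hP (e2.2 h))]
      · rw [if_neg hc, if_neg (fun h => hc (e1.2 h))]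
    · rw [if_neg (fun h => hG h.1), if_neg (fun h => hG h.1)]
  · rw [if_neg (fun h => hW ((unW_iff W₀).2 h.2)), if_neg (fun h => hW h.2.1)]

/-- **Lenstra's condition in arbitrary sets of primes.** Let `0 < σ`, `0 < δ` and integers
`κ, C₀ ≥ 1` be given. There is `c > 0` such that for all large `X`, all `N` with
`X ^ (2/κ) ≤ N ≤ X ^ C₀`, EVERY set `S` of at least `X ^ σ` primes up to `X`, every finite Galois
extension `F / ℚ`, every set `C` of automorphisms, every subgroup `W₀` of `ℚˣ`, all `k, r ≥ 1` and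
every rational `D ≠ 0` which is a unit at the primes of `S`: for all `n ≤ N` with at most
`N X ^ (-(σ - δ)/κ)` exceptions, the number of `q ∈ S` in `𝒮(F, C, ⟨W₀, D n ^ r⟩, k)` is the sum of the
local densities over `q ∈ S`, up to an error of at most `|S| X ^ (-c)`. -/
theorem result (σ δ : ℝ) (hσ : 0 < σ) (hδ : 0 < δ) (κ C₀ : ℕ) (hκ : 1 ≤ κ) (hC₀ : 1 ≤ C₀) :
    ∃ c : ℝ, 0 < c ∧ ∃ X₀ : ℕ, ∀ X : ℕ, X₀ ≤ X → ∀ N : ℕ, X ^ 2 ≤ N ^ κ → N ≤ X ^ C₀ →
      ∀ S : Finset ℕ, (∀ q ∈ S, q.Prime ∧ q ≤ X) → (X : ℝ) ^ σ ≤ #S →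
        ∀ (F : IntermediateField ℚ (AlgebraicClosure ℚ)) [NumberField F] [IsGalois ℚ F]
          (C : Set (F ≃ₐ[ℚ] F)) (W₀ : Subgroup ℚˣ) (k : ℕ) (D : ℚˣ) (r : ℕ), 0 < k → 0 < r →
          (∀ q ∈ S, padicValRat q (D : ℚ) = 0) →
            (#(exceptions F C W₀ k D r S N X c) : ℝ) ≤ N * (X : ℝ) ^ (-(σ - δ) / κ) := by
  classical
  obtain ⟨c, hc, X₀, h⟩ := Pool.Agent.TH893.JO.len_sets σ δ hσ hδ κ C₀ hκ hC₀
  refine ⟨c, hc, X₀, ?_⟩
  intro X hX N hN1 hN2 S hS hSσ F _ _ C W₀ k D r hk hr hD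
  have h1 := h X hX N hN1 hN2 S hS hSσ F C W₀ k D r hk.ne' hr.ne' hD
  have e : ∑ q ∈ S, loc F C W₀ k D r q =
      ∑ q ∈ S, Pool.Agent.TH890.AS.dens q (Pool.Agent.W171.LG.QR F C W₀ k D r q) :=
    sum_congr rfl fun q hq => loc_eq F C W₀ k D r (hS q hq).1 (hD q hq)
  unfold exceptions
  rw [e]
  exact h1

end Pool.Agent.Results.MP_48b1c3_nt.ArbitrarySetsOfPrimes
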