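import Pool.Agent.TH894.NE5

/-!
# The index of the group generated by `s` integers modulo the primes of an arbitrary set, for almost all `s`-tuples of integers
which arise from arbitrary integers by changing a few digits

Nothing is used besides Mathlib in the statement.
-/

set_option autoImplicit false

namespace Pool.Agent.Results.MP_48b1c3_nt.FewDigitGenerators

open Finset

open Classical in
/-- The index `[(ℤ / qℤ)ˣ : ⟨m 0, ..., m (s - 1)⟩]` of the group generated by the classes of the `m i`, and `0` if one of the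
`m i` is not coprime to `q`. -/
noncomputable def index {s : ℕ} (q : ℕ) (m : Fin s → ℕ) : ℕ :=
  if ∀ i, Nat.Coprime (m i) q then (Subgroup.closure {u : (ZMod q)ˣ | ∃ i, (u : ZMod q) = ((m i : ℕ) : ZMod q)}).index else 0

/-- The average over all the `s`-tuples of residues modulo `q` of the function `F`. -/
noncomputable def average {s : ℕ} (q : ℕ) (F : (Fin s → ℕ) → ℝ) : ℝ :=
  (∑ m ∈ Fintype.piFinset (fun _ : Fin s => range q), F m) / (q : ℝ) ^ s

/-- For all the functions `φ` in the set the sum over the primes `q ∈ P` of `φ q` at the index of the group generated by the `m i` modulo `q`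
differs from the sum of the averages over all `s`-tuples of residues modulo `q` by at most `(max 1 V) ^ (1 / 2) x ^ δ`, where `V` is the
sum of the averages of the squares. -/
def Good {s : ℕ} (P : Finset ℕ) (Φ : Finset (ℕ → ℕ → ℝ)) (δ : ℝ) (x : ℕ) (m : Fin s → ℕ) : Prop :=
  ∀ φ ∈ Φ, |∑ q ∈ P, φ q (index q m) - ∑ q ∈ P, average q (fun u : Fin s → ℕ => φ q (index q u))| ≤
    Real.sqrt (max 1 (∑ q ∈ P, average q (fun u : Fin s → ℕ => φ q (index q u) ^ 2))) * (x : ℝ) ^ δ

open Classical in
/-- For all `1 ≤ k ≤ x ^ A` the number of the primes `q ∈ P` for which the group generated by the `m i` modulo `q` has an index dividing `k`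
(and all `m i` are coprime to `q`) differs from its expected value `V` by at most `(max 1 V) ^ (1 / 2) x ^ δ`, where `V` is the
sum over the primes `q ∈ P` of the proportion of the `s`-tuples of residues modulo `q` with this property. -/
def GoodDivisors {s : ℕ} (A : ℕ) (P : Finset ℕ) (δ : ℝ) (x : ℕ) (m : Fin s → ℕ) : Prop :=
  ∀ k : ℕ, 1 ≤ k → k ≤ x ^ A →
    |(((P.filter (fun q => index q m ∣ k)).card : ℝ)) - ∑ q ∈ P, average q (fun u : Fin s → ℕ => if index q u ∣ k then 1 else 0)| ≤
      Real.sqrt (max 1 (∑ q ∈ P, average q (fun u : Fin s → ℕ => if index q u ∣ k then 1 else 0))) * (x : ℝ) ^ δ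

/-- The digit number `i` (counted from the right, beginning with `0`) of `n` in base `b`. -/
def digit (b i n : ℕ) : ℕ := n / b ^ i % b

/-- The number which arises from the number `N` with at most `K` digits in base `b`, if for every `i ∈ S`
the digit number `i` is replaced by `f i`. -/
def change (b K N : ℕ) (f : ℕ → ℕ) (S : Finset ℕ) : ℕ :=
  ∑ i ∈ range K, (if i ∈ S then f i else digit b i N) * b ^ i

open Classical in
/-- The number of the choices of `r l` of `K l` positions for all `l < s` for which the vector of the numbers obtained by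
changing the digits of the `N l` at the chosen positions (according to `f l`) does not have the property `E`. -/
noncomputable def exceptions {s : ℕ} (b : ℕ) (K r N : Fin s → ℕ) (f : Fin s → ℕ → ℕ) (E : (Fin s → ℕ) → Prop) : ℕ :=
  ((Fintype.piFinset (fun l => powersetCard (r l) (range (K l)))).filter
    (fun S => ¬ E (fun l => change b (K l) (N l) (f l) (S l)))).card

lemma index_mod {s : ℕ} (q : ℕ) (m : Fin s → ℕ) : index q m = index q (fun i => m i % q) := by
  classical
  unfold index
  have h1 : (∀ i, Nat.Coprime (m i) q) ↔ ∀ i, Nat.Coprime (m i % q) q := by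
    apply forall_congr'
    intro i
    unfold Nat.Coprime
    rw [← Nat.gcd_rec, Nat.gcd_comm]
  have h2 : {u : (ZMod q)ˣ | ∃ i, (u : ZMod q) = ((m i : ℕ) : ZMod q)} = {u : (ZMod q)ˣ | ∃ i, (u : ZMod q) = ((m i % q : ℕ) : ZMod q)} := by
    ext u
    simp only [Set.mem_ofPred_eq, ZMod.natCast_mod]
  by_cases h : ∀ i, Nat.Coprime (m i) q
  · rw [if_pos h, if_pos (h1.1 h), h2]
  · rw [if_neg h, if_neg (fun h' => h (h1.2 h'))]

/-- Let a base `b ≥ 2`, the number `s ≥ 1` of the generators, `δ > 0` and an integer `A ≥ 0` be given. There are `c > 0` and `y₀` such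
that for all integers `r l`, `K l`, `y` with `2 r l ≤ K l` and `y ≥ y₀` the following holds.

Let `0 ≤ N l < b ^ K l` be arbitrary integers, prescribe for every position `j` a digit `f l j` different from the digit of
`N l` in base `b`, let `P x` be for every `x` an arbitrary set of primes up to `x` (for instance those with a prescribed Frobenius class),
and let `Φ x` be a set of at most `x ^ A` real functions of absolute value at most `1` of a prime and an index. If one chooses `r l` of the `K l`
positions and replaces the digits of `N l` at these positions, then for all but at most a proportion `1 / y ^ A` of the choices the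
`s`-tuple `m` obtained has the following property for all integers `x` with `y ≤ x ≤ exp (c r l)` for all `l`: for all `φ ∈ Φ x` the sum over
`q ∈ P x` of the values of `φ` at the index of `⟨m 0, ..., m (s - 1)⟩` modulo `q` differs from the sum of the averages over all `s`-tuples of
residues by at most `(max 1 V) ^ (1 / 2) x ^ δ`, `V` being the sum of the averages of `φ ^ 2`; and, simultaneously for all `1 ≤ k ≤ x ^ A`, the
number of the `q ∈ P x` for which this index divides `k` differs from its expected value `V` by at most `(max 1 V) ^ (1 / 2) x ^ δ`. -/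
theorem result (b s : ℕ) (hb : 2 ≤ b) (hs : 1 ≤ s) (δ : ℝ) (hδ : 0 < δ) (A : ℕ) : ∃ c : ℝ, 0 < c ∧ ∃ y₀ : ℕ,
    ∀ (K r : Fin s → ℕ) (y : ℕ), (∀ l, 2 * r l ≤ K l) → y₀ ≤ y →
    ∀ N : Fin s → ℕ, (∀ l, N l < b ^ K l) → ∀ f : Fin s → ℕ → ℕ, (∀ l j, f l j < b ∧ f l j ≠ digit b j (N l)) →
    ∀ P : ℕ → Finset ℕ, (∀ x, ∀ q ∈ P x, q.Prime ∧ q ≤ x) →
    ∀ Φ : ℕ → Finset (ℕ → ℕ → ℝ), (∀ x, (Φ x).card ≤ x ^ A) → (∀ x, ∀ φ ∈ Φ x, ∀ q v, |φ q v| ≤ 1) →
      (exceptions b K r N f (fun m => ∀ x : ℕ, y ≤ x → (∀ l, (x : ℝ) ≤ Real.exp (c * r l)) →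
        Good (P x) (Φ x) δ x m ∧ GoodDivisors A (P x) δ x m) : ℝ) ≤
        1 / (y : ℝ) ^ A * ∏ l, ((K l).choose (r l) : ℝ) := by
  classical
  obtain ⟨c, hc, x₀, h⟩ := Pool.Agent.TH894.NE.law3 b s hb hs δ A (A + 1) hδ
  refine ⟨c, hc, x₀ + 3, fun K r y hrK hy N hN f hf P hP Φ hΦ hΦ1 => ?_⟩
  have hy0 : (0 : ℝ) < y := by exact_mod_cast (by omega : 0 < y)
  have h1 : 1 / (y : ℝ) ^ A = (y : ℝ) ^ (-(A : ℝ)) := by
    rw [Real.rpow_neg hy0.le, Real.rpow_natCast, one_div]
  rw [h1]
  unfold exceptions
  have hav : ∀ (p : ℕ) (F : (Fin s → ℕ) → ℝ), average p F = Pool.Agent.TH894.NE.mean s p F := by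
    intro p F
    unfold average Pool.Agent.TH894.NE.mean Pool.Agent.TH894.NE.box
    ring
  obtain ⟨Ψ, hΨ⟩ : ∃ Ψ : ℕ → Finset (ℕ → ℕ → ℝ), Ψ = fun x => if x < 2 then ∅ else
    Φ x ∪ (Icc 1 (x ^ A)).image (fun k : ℕ => fun (_ v : ℕ) => if v ∣ k then (1 : ℝ) else 0) := ⟨_, rfl⟩
  refine h r K y hrK (by omega) N hN f hf (ℕ → ℕ → ℝ) Ψ ?_ ℕ
    (fun x _ => P x) (fun _ p => p) ?_ ?_ (fun φ p m => φ p (index p m)) ?_ ?_ _ (filter_subset _ _) ?_
  · intro x _
    rw [hΨ]
    show (((if x < 2 then ∅ else Φ x ∪ (Icc 1 (x ^ A)).image (fun k : ℕ => fun (_ v : ℕ) => if v ∣ k then (1 : ℝ) else 0)) :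
      Finset (ℕ → ℕ → ℝ)).card : ℝ) ≤ _
    split_ifs with hx
    · rw [card_empty, Nat.cast_zero]
      positivity
    · push Not at hx
      have h2 : (Φ x ∪ (Icc 1 (x ^ A)).image (fun k : ℕ => fun (_ v : ℕ) => if v ∣ k then (1 : ℝ) else 0)).card ≤ x ^ A + x ^ A := by
        refine (card_union_le _ _).trans (add_le_add (hΦ x) ?_)
        refine card_image_le.trans ?_
        rw [Nat.card_Icc]
        omega
      have h3 : x ^ A + x ^ A ≤ x ^ (A + 1) := by
        rw [pow_succ]
        have : x ^ A * 2 ≤ x ^ A * x := Nat.mul_le_mul_left _ hx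
        omega
      have h4 : (x : ℝ) ^ ((A : ℝ) + 1) = ((x ^ (A + 1) : ℕ) : ℝ) := by
        rw [show ((A : ℝ) + 1) = ((A + 1 : ℕ) : ℝ) by push_cast; ring, Real.rpow_natCast]
        push_cast
        ring
      rw [h4]
      exact_mod_cast h2.trans h3
  · intro x l _ p hp
    exact ⟨(hP x p hp).1.one_lt.le, (hP x p hp).2⟩
  · intro x l _ p hp p' hp' hne
    exact (Nat.coprime_primes (hP x p hp).1 (hP x p' hp').1).2 hne
  · intro x φ _ p _ m
    show φ p (index p m) = φ p (index p (fun i => m i % p))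
    rw [← index_mod]
  · intro x φ hφ p _ m
    rw [hΨ] at hφ
    have hφ' : φ ∈ (if x < 2 then ∅ else Φ x ∪ (Icc 1 (x ^ A)).image (fun k : ℕ => fun (_ v : ℕ) => if v ∣ k then (1 : ℝ) else 0)) := hφ
    split_ifs at hφ' with hx
    · simp at hφ'
    · rw [mem_union, mem_image] at hφ'
      rcases hφ' with h2 | ⟨k, _, rfl⟩
      · exact hΦ1 x φ h2 p _
      · show |(if index p m ∣ k then (1 : ℝ) else 0)| ≤ 1
        split_ifs <;> norm_num
  · intro S hS
    rw [mem_filter] at hS
    obtain ⟨_, hS2⟩ := hS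
    push Not at hS2
    obtain ⟨x, hyx, hxr, hbad⟩ := hS2
    have hx0 : (0 : ℝ) < x := by exact_mod_cast (by omega : 0 < x)
    refine ⟨x, hyx, fun l => (Real.log_le_iff_le_exp hx0).2 (hxr l), ?_⟩
    obtain ⟨m, hm⟩ : ∃ m : Fin s → ℕ, m = fun l => change b (K l) (N l) (f l) (S l) := ⟨_, rfl⟩
    rw [← hm] at hbad
    have hgoal : ∃ l ∈ Ψ x, Real.sqrt (max 1 (∑ a ∈ P x, Pool.Agent.TH894.NE.mean s a (fun n => l a (index a n) ^ 2))) * (x : ℝ) ^ δ <
        |∑ a ∈ P x, l a (index a m) - ∑ a ∈ P x, Pool.Agent.TH894.NE.mean s a (fun n => l a (index a n))| := by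
      by_cases hG : Good (P x) (Φ x) δ x m
      · have hD := hbad hG
        unfold GoodDivisors at hD
        push Not at hD
        obtain ⟨k, hk1, hk2, hlt⟩ := hD
        refine ⟨fun (_ v : ℕ) => if v ∣ k then (1 : ℝ) else 0, ?_, ?_⟩
        · rw [hΨ]
          show _ ∈ (if x < 2 then ∅ else Φ x ∪ (Icc 1 (x ^ A)).image (fun k : ℕ => fun (_ v : ℕ) => if v ∣ k then (1 : ℝ) else 0))
          rw [if_neg (by omega), mem_union, mem_image]
          exact Or.inr ⟨k, by rw [mem_Icc]; exact ⟨hk1, hk2⟩, rfl⟩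
        · simp only [hav] at hlt
          have e1 : ((((P x).filter (fun q => index q m ∣ k)).card : ℕ) : ℝ) = ∑ a ∈ P x, (if index a m ∣ k then (1 : ℝ) else 0) := by
            rw [card_filter]
            push_cast
            rfl
          have e2 : ∀ a, (fun n : Fin s → ℕ => (if index a n ∣ k then (1 : ℝ) else 0) ^ 2) = fun n => if index a n ∣ k then (1 : ℝ) else 0 := by
            intro a
            funext n
            split_ifs <;> norm_num
          rw [e1] at hlt
          simp only [e2]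
          exact hlt
      · unfold Good at hG
        push Not at hG
        obtain ⟨φ, hφ, hlt⟩ := hG
        refine ⟨φ, ?_, ?_⟩
        · rw [hΨ]
          show φ ∈ (if x < 2 then ∅ else Φ x ∪ (Icc 1 (x ^ A)).image (fun k : ℕ => fun (_ v : ℕ) => if v ∣ k then (1 : ℝ) else 0))
          rw [if_neg (by omega), mem_union]
          exact Or.inl hφ
        · simp only [hav] at hlt
          exact hlt
    rw [hm] at hgoal
    exact hgoal

end Pool.Agent.Results.MP_48b1c3_nt.FewDigitGenerators
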