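import Pool.Agent.TH891.PI.M9

set_option autoImplicit false

namespace Pool.Agent.Results.MP_48b1c3_nt.PrescribedIndices

open Finset

/-- `k` consecutive primes `p_s < ... < p_{s+k-1}` in an interval of length `H`, all `≡ b mod f`, such that the
subgroup generated by `a` modulo `p_{s+j}` has index exactly `i j`, for every `j`. -/
def Pat (k H f b : ℕ) (i : Fin k → ℕ) (a s : ℕ) : Prop :=
  ∀ j : Fin k, Nat.nth Nat.Prime (s + j) ≤ Nat.nth Nat.Prime s + H ∧ Nat.nth Nat.Prime (s + j) ≡ b [MOD f] ∧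
    Nat.nth Nat.Prime (s + j) - 1 = i j * orderOf (a : ZMod (Nat.nth Nat.Prime (s + j)))

open Classical in
/-- Every pattern of indices along consecutive primes in a residue class, for all but `N^θ` of the `a ≤ N`. -/
theorem result (k : ℕ) : ∃ θ c : ℝ, θ < 1 ∧ 0 < c ∧ ∃ κ : ℕ, ∀ f b I : ℕ, 0 < f → b.Coprime f →
    ∃ H N₀ : ℕ, ∀ N : ℕ, N₀ ≤ N → ∃ Z ⊆ Icc 1 N, (#Z : ℝ) ≤ (N : ℝ) ^ θ ∧ ∀ a ∈ Icc 1 N, a ∉ Z →
      ∀ i : Fin k → ℕ, (∀ j, 0 < i j ∧ i j ≤ I ∧ b ≡ 1 [MOD Nat.gcd (i j) f]) →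
        ∀ x : ℕ, N ≤ x → Real.log x ≤ (Real.log N) ^ (1 + c) →
          (x : ℝ) / Real.log x ^ κ ≤
            (#{s ∈ range (7 * x) | x < Nat.nth Nat.Prime s ∧ Nat.nth Nat.Prime s ≤ 7 * x ∧ Pat k H f b i a s} : ℝ) := by
  obtain ⟨θ, c, hθ, hc, κ, h⟩ := Pool.Agent.TH891.PI.final k
  refine ⟨θ, c, hθ, hc, κ, fun f b I hf hbf => ?_⟩
  obtain ⟨f', b', hf', hff, h2f, hbf', hb1, hbb, hS⟩ := Pool.Agent.TH891.PI.class_for f b hf hbf
    ((Icc 1 I).filter (fun e => b ≡ 1 [MOD Nat.gcd e f]))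
    (by intro e he; rw [mem_filter, mem_Icc] at he; omega)
    (by intro e he; rw [mem_filter] at he; exact he.2)
  obtain ⟨H, N₀, h⟩ := h f' b' hf' h2f hbf' hb1 1 1
  refine ⟨H, max N₀ 1, fun N hN => ?_⟩
  obtain ⟨Z, hZN, hZ, h⟩ := h N ((le_max_left _ _).trans hN) {((1 : ℤ), 1)} (by simp) (by
    intro Br hBr
    rw [mem_singleton] at hBr
    subst hBr
    refine ⟨le_refl _, le_refl _, fun p hp hNp hd => ?_⟩
    have h1 := Int.natAbs_dvd_natAbs.2 hd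
    simp only [Int.natAbs_natCast, Int.natAbs_one] at h1
    exact hp.one_lt.ne' (Nat.dvd_one.1 h1))
  refine ⟨Z, hZN, hZ, fun a ha haZ i hi x hx1 hx2 => ?_⟩
  have hi' : ∀ j, i j ∣ Nat.gcd (b' - 1) f' := by
    intro j
    obtain ⟨h1, h2, h3⟩ := hi j
    exact hS (i j) (by rw [mem_filter, mem_Icc]; exact ⟨⟨h1, h2⟩, h3⟩)
  have h1 := h a ha haZ i hi' x hx1 hx2 (fun s => Pat k H f b i a s) (by
    intro s hxs hs j
    obtain ⟨g1, g2, g3, g4, g5⟩ := hs j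
    refine ⟨g1, (g2.of_dvd hff).trans hbb, ?_⟩
    refine Pool.Agent.TH891.PI.order_of_LC (Nat.prime_nth_prime _) ?_ g3 (hi' j) g4 ?_
    · exact Nat.gcd_pos_of_pos_right _ hf'
    · intro q hq hqd
      have h2 := g5 ((1 : ℤ), 1) (mem_singleton_self _) q hq hqd
      simpa using h2)
  exact h1

end Pool.Agent.Results.MP_48b1c3_nt.PrescribedIndices
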