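import Pool.Agent.TH816.MQ.Len

set_option autoImplicit false

/-! # Strings of consecutive primes in Lenstra's sets, for every group of large rank -/

namespace Pool.Agent.Results.MP_48b1c3_nt.StringsOfLargeRank

open Finset

/-- the conditions of the problem on the prime `q` apart from the Frobenius condition: `W` consists of
`q`-units and the index of its image in `(ℤ/q)ˣ` divides `k` -/
def Admits (W : Subgroup ℚˣ) (k q : ℕ) : Prop :=
  (∀ w ∈ W, padicValRat q (w : ℚ) = 0) ∧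
  (Subgroup.closure {u : (ZMod q)ˣ | ∃ w ∈ W,
      (((w : ℚ).num : ℤ) : ZMod q) = (u : ZMod q) * (((w : ℚ).den : ℕ) : ZMod q)}).index ∣ k

open Classical in
/-- For every `m` there are `t` and `C` with the following property.  Let `2 ∣ f`, `e` prime to `f`, and
suppose that `ℓ * g` divides `f` for every prime `ℓ ∣ g`, where `g = gcd (e - 1, f)` (every reduced class
is a union of classes modulo a larger modulus, many of which have this property).  Let `W ≤ ℚˣ` be any
finitely generated group which contains `t` multiplicatively independent elements, and let `k` be such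
that either `g ∣ k`, or `g ∣ 2 ^ j k` for some `j` and `W` contains a number `w₀` which is not a square
modulo the large primes `q ≡ e` modulo `f`.  Then there is `B` such that for all large `x` at least
`x / (log x) ^ C` integers `n` of `[x, 2 x)` satisfy: `(n, n + B]` contains at least `m` primes, and
EVERY prime `q` of `(n, n + B]` is `≡ e` modulo `f` and satisfies Lenstra's conditions: `W` consists of
`q`-units and the index of its image in `(ℤ/q)ˣ` divides `k`. -/
theorem result (m : ℕ) : ∃ t C : ℕ, ∀ (f e k : ℕ) (W : Subgroup ℚˣ), 0 < f → 2 ∣ f →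
    e.Coprime f → (∀ ℓ : ℕ, ℓ.Prime → ℓ ∣ Nat.gcd (e - 1) f → ℓ * Nat.gcd (e - 1) f ∣ f) →
    (Nat.gcd (e - 1) f ∣ k ∨ ((∃ j : ℕ, Nat.gcd (e - 1) f ∣ 2 ^ j * k) ∧ ∃ w₀ ∈ W, ∃ q₀ : ℕ,
      ∀ q : ℕ, q.Prime → q₀ ≤ q → q ≡ e [MOD f] → ∀ u : ZMod q,
        (((w₀ : ℚ).num : ℤ) : ZMod q) ≠ u ^ 2 * (((w₀ : ℚ).den : ℕ) : ZMod q))) →
    W.FG → (∃ w : Fin t → ℚˣ, (∀ i, w i ∈ W) ∧ ∀ j : Fin t → ℤ, ∏ i, w i ^ j i = 1 → j = 0) →
    ∃ B x₀ : ℕ, ∀ x : ℕ, x₀ ≤ x → (x : ℝ) / Real.log x ^ C ≤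
      (#{n ∈ Ico x (2 * x) | m ≤ #{q ∈ Ioc n (n + B) | q.Prime} ∧
        ∀ q ∈ Ioc n (n + B), q.Prime → q ≡ e [MOD f] ∧ Admits W k q} : ℝ) := by
  obtain ⟨t, C, h⟩ := Pool.Agent.TH816.MQ.lenstra m
  refine ⟨t, C, fun f e k W hf h2f hef hg hk hFG hr => ?_⟩
  obtain ⟨B, x₀, h⟩ := h f e k W hf h2f hef hg hk hFG hr
  refine ⟨B, x₀, fun x hx => ?_⟩
  obtain ⟨G, hG1, hG2, hG3⟩ := h x hx
  refine hG2.trans ?_
  exact_mod_cast Finset.card_le_card (fun n hn => by
    rw [mem_filter]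
    refine ⟨hG1 hn, ?_, fun q hq hqp => ?_⟩
    · convert (hG3 n hn).1
    · exact (hG3 n hn).2 q hq hqp)

end Pool.Agent.Results.MP_48b1c3_nt.StringsOfLargeRank
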